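import Mathlib

/-!
# A purely transcendental extension is algebraically closed: a criterion by counting
-/

set_option autoImplicit false

namespace Pool.Agent.Y841.MC

open MvPolynomial IntermediateField

/-- a polynomial expression in independent elements does not vanish if the polynomial does not vanish
at some point -/
theorem ne_zero_of_point {k W π : Type} [Field k] [Field W] [Algebra k W] {p : π → W}
    (hp : AlgebraicIndependent k p) (P : MvPolynomial π k) (a : π → k) (h : eval a P ≠ 0) :
    aeval p P ≠ 0 := by
  intro h0
  apply h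
  have : P = 0 := by
    have h1 := algebraicIndependent_iff_injective_aeval.1 hp
    apply h1
    rw [h0, map_zero]
  rw [this, map_zero]

/-- an element of a purely transcendental extension which is algebraic over the base field lies in
the base field -/
theorem mem_base_of_alg {K W ρ : Type} [Field K] [Infinite K] [Field W] [Algebra K W] {z : ρ → W}
    (hz : AlgebraicIndependent K z) (θ : W) (hθ : θ ∈ adjoin K (Set.range z))
    (halg : IsAlgebraic K θ) : ∃ c : K, θ = algebraMap K W c := by
  classical
  obtain ⟨A, B, hAB⟩ := (mem_adjoin_range_iff K z θ).1 hθ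
  by_cases hB0 : aeval z B = 0
  · refine ⟨0, ?_⟩
    rw [hAB, hB0, div_zero, map_zero]
  have hinj := algebraicIndependent_iff_injective_aeval.1 hz
  have hB : B ≠ 0 := by
    rintro rfl
    exact hB0 (map_zero _)
  obtain ⟨g, hg0, hg⟩ := halg
  set n := g.natDegree with hn
  -- the homogenised polynomial
  set H : MvPolynomial ρ K := ∑ i ∈ Finset.range (n + 1), C (g.coeff i) * A ^ i * B ^ (n - i) with hH
  have hH0 : H = 0 := by
    apply hinj
    rw [map_zero, hH, map_sum]
    have e : ∀ i ∈ Finset.range (n + 1), aeval z (C (g.coeff i) * A ^ i * B ^ (n - i)) =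
        (aeval z B) ^ n * (algebraMap K W (g.coeff i) * θ ^ i) := by
      intro i hi
      have hi' : i ≤ n := by
        have := Finset.mem_range.1 hi
        omega
      rw [map_mul, map_mul, map_pow, map_pow, aeval_C, hAB, div_pow]
      have : (aeval z B) ^ n = (aeval z B) ^ i * (aeval z B) ^ (n - i) := by
        rw [← pow_add]; congr 1; omega
      rw [this]
      field_simp
    rw [Finset.sum_congr rfl e, ← Finset.mul_sum]
    have : ∑ i ∈ Finset.range (n + 1), algebraMap K W (g.coeff i) * θ ^ i = 0 := by
      rw [Polynomial.aeval_eq_sum_range] at hg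
      rw [← hg]
      refine Finset.sum_congr rfl fun i _ => ?_
      rw [Algebra.smul_def]
    rw [this, mul_zero]
  -- the product over the roots
  have hprod : B * ∏ r ∈ g.roots.toFinset, (A - C r * B) = 0 := by
    apply MvPolynomial.funext
    intro a
    rw [map_zero, map_mul, map_prod]
    by_cases hBa : eval a B = 0
    · rw [hBa, zero_mul]
    · rw [mul_eq_zero]
      right
      have h1 : eval a H = 0 := by rw [hH0, map_zero]
      rw [hH, map_sum] at h1
      have h2 : g.eval (eval a A / eval a B) = 0 := by
        rw [Polynomial.eval_eq_sum_range]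
        have e : ∀ i ∈ Finset.range (n + 1), eval a (C (g.coeff i) * A ^ i * B ^ (n - i)) =
            (eval a B) ^ n * (g.coeff i * (eval a A / eval a B) ^ i) := by
          intro i hi
          have hi' : i ≤ n := by
            have := Finset.mem_range.1 hi
            omega
          rw [map_mul, map_mul, map_pow, map_pow, eval_C, div_pow]
          have : (eval a B) ^ n = (eval a B) ^ i * (eval a B) ^ (n - i) := by
            rw [← pow_add]; congr 1; omega
          rw [this]
          field_simp
        rw [Finset.sum_congr rfl e, ← Finset.mul_sum] at h1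
        exact (mul_eq_zero.1 h1).resolve_left (pow_ne_zero _ hBa)
      refine Finset.prod_eq_zero (i := eval a A / eval a B) ?_ ?_
      · rw [Multiset.mem_toFinset, Polynomial.mem_roots hg0]
        exact h2
      · rw [map_sub, map_mul, eval_C]
        field_simp
        ring
  rw [mul_eq_zero] at hprod
  have h3 := hprod.resolve_left hB
  rw [Finset.prod_eq_zero_iff] at h3
  obtain ⟨c, -, hc⟩ := h3
  refine ⟨c, ?_⟩
  have h4 : A = C c * B := sub_eq_zero.1 hc
  rw [hAB, h4, map_mul, aeval_C]
  field_simp

/-- a generating family with as many elements as the transcendence degree is independent, and the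
field generated by a part of it is algebraically closed -/
theorem count {k W ι ρ π : Type} [Field k] [CharZero k] [Field W] [Algebra k W] [Fintype ι]
    [Fintype ρ] [Fintype π] (p : π → W) (hp : AlgebraicIndependent k p) (x : ι → W) (z : ρ → W)
    (hcard : Fintype.card ρ + Fintype.card ι ≤ Fintype.card π)
    (hx : ∀ i, x i ∈ adjoin k (Set.range p)) (hz : ∀ i, z i ∈ adjoin k (Set.range p))
    (hpz : ∀ i, p i ∈ adjoin k (Set.range (Sum.elim z x))) :
    AlgebraicIndependent k x ∧ ∀ θ ∈ adjoin k (Set.range p),
      IsAlgebraic (adjoin k (Set.range x)) θ → θ ∈ adjoin k (Set.range x) := by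
  set F := adjoin k (Set.range p) with hF
  -- everything in the field F
  set p' : π → F := fun i => ⟨p i, subset_adjoin k _ ⟨i, rfl⟩⟩ with hp'
  set y' : ρ ⊕ ι → F := Sum.elim (fun i => ⟨z i, hz i⟩) (fun i => ⟨x i, hx i⟩) with hy'
  have hy : ∀ j, (y' j : W) = Sum.elim z x j := by
    rintro (j | j) <;> rfl
  have hp1 : AlgebraicIndependent k p' := by
    have : AlgebraicIndependent k (F.val ∘ p') := hp
    exact this.of_comp F.val
  have hle : adjoin k (Set.range (Sum.elim z x)) ≤ F := by
    rw [adjoin_le_iff]
    rintro _ ⟨j | j, rfl⟩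
    · exact hz j
    · exact hx j
  have hFeq : adjoin k (Set.range (Sum.elim z x)) = F := by
    refine le_antisymm hle ?_
    rw [hF, adjoin_le_iff]
    rintro _ ⟨j, rfl⟩
    exact hpz j
  have htop : adjoin k (Set.range y') = ⊤ := by
    have h1 : (adjoin k (Set.range y')).map F.val = F := by
      rw [adjoin_map]
      refine Eq.trans ?_ hFeq
      congr 1
      ext w
      constructor
      · rintro ⟨_, ⟨j, rfl⟩, rfl⟩
        exact ⟨j, (hy j).symm⟩
      · rintro ⟨j, rfl⟩
        exact ⟨y' j, ⟨j, rfl⟩, hy j⟩
    rw [eq_top_iff]
    intro w _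
    have h2 : (w : W) ∈ (adjoin k (Set.range y')).map F.val := by
      rw [h1]; exact w.2
    obtain ⟨w', hw', hww⟩ := h2
    have : w' = w := Subtype.ext hww
    rw [← this]; exact hw'
  have halg : Algebra.IsAlgebraic (Algebra.adjoin k (Set.range y')) F := by
    rw [← isAlgebraic_adjoin_iff_top]
    constructor
    intro w
    have hw : w ∈ adjoin k (Set.range y') := by rw [htop]; trivial
    exact isAlgebraic_algebraMap (⟨w, hw⟩ : adjoin k (Set.range y'))
  have htr : Cardinal.mk π ≤ Algebra.trdeg k F := hp1.cardinalMk_le_trdeg
  have hb : IsTranscendenceBasis k y' := by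
    refine Algebra.IsAlgebraic.isTranscendenceBasis_of_le_trdeg_of_finite k y' ?_
    refine le_trans ?_ htr
    rw [Cardinal.mk_fintype, Cardinal.mk_fintype, Fintype.card_sum]
    exact_mod_cast hcard
  have hind : AlgebraicIndependent k (Sum.elim z x) := by
    have h1 := hb.1.map' (f := F.val) F.val.injective
    have h2 : (F.val ∘ y') = Sum.elim z x := by
      funext j
      exact hy j
    rwa [h2] at h1
  obtain ⟨hxi, hzi⟩ := AlgebraicIndependent.sumElim_iff.1 hind
  refine ⟨hxi, ?_⟩
  have hzi' : AlgebraicIndependent (adjoin k (Set.range x)) z :=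
    algebraicIndependent_adjoin_iff.2 hzi
  intro θ hθ hθa
  have : CharZero (adjoin k (Set.range x)) :=
    charZero_of_injective_algebraMap (algebraMap k (adjoin k (Set.range x))).injective
  have hθ' : θ ∈ adjoin (adjoin k (Set.range x)) (Set.range z) := by
    have h1 : F ≤ (adjoin (adjoin k (Set.range x)) (Set.range z)).restrictScalars k := by
      rw [← hFeq, adjoin_le_iff]
      rintro _ ⟨j | j, rfl⟩
      · exact subset_adjoin (adjoin k (Set.range x)) (Set.range z) ⟨j, rfl⟩
      · exact (adjoin (adjoin k (Set.range x)) (Set.range z)).algebraMap_mem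
          ⟨x j, subset_adjoin k _ ⟨j, rfl⟩⟩
    exact h1 hθ
  obtain ⟨c, hc⟩ := mem_base_of_alg hzi' θ hθ' hθa
  rw [hc]
  exact c.2

end Pool.Agent.Y841.MC
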