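import Pool.Agent.Y198.MC.Stm
import Pool.Agent.Y841.MC.Alg0

/-!
# The function field of `X` is algebraically closed in the field of the parameters
-/

set_option autoImplicit false

namespace Pool.Agent.Y841.MC.Alg1

open MvPolynomial IntermediateField Pool.Agent.Y166.GM Pool.Agent.Y198.MC Pool.Agent.Y841.MC

section
variable {W : Type} [Field W] {r : ℕ}

/-- the ratios of the Plücker coordinates -/
theorem ratio0 (u v : Fin (r + 2) → W) (c : Fin 4 → W)
    (hG : cub u v c (0, 0, 0) ≠ 0) (i : Fin r) :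
    ptX u v c (rrX r (.inl (i, 0))) / ptX u v c (j0 r) =
      (u i.succ.succ * v 1 - v i.succ.succ * u 1) / (u 0 * v 1 - v 0 * u 1) := by
  simp only [ptX, rrX, j0, wdg, if_true]
  rw [mul_div_mul_right _ _ hG]

theorem ratio1 (u v : Fin (r + 2) → W) (c : Fin 4 → W)
    (hG : cub u v c (0, 0, 0) ≠ 0) (i : Fin r) :
    ptX u v c (rrX r (.inl (i, 1))) / ptX u v c (j0 r) =
      (u 0 * v i.succ.succ - v 0 * u i.succ.succ) / (u 0 * v 1 - v 0 * u 1) := by
  simp only [ptX, rrX, j0, wdg, one_ne_zero, if_false]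
  rw [mul_div_mul_right _ _ hG]

theorem ratio2 (u v : Fin (r + 2) → W) (c : Fin 4 → W)
    (hW : u 0 * v 1 - v 0 * u 1 ≠ 0) (j : Fin 3) :
    ptX u v c (rrX r (.inr j)) / ptX u v c (j0 r) =
      cub u v c (![(0, 0, 1), (0, 1, 1), (1, 1, 1)] j) / cub u v c (0, 0, 0) := by
  simp only [ptX, rrX, j0]
  rw [mul_div_mul_left]
  exact hW

theorem u_eq (a b a1 b1 ui vi : W) (h : a * b1 - b * a1 ≠ 0) :
    ui = a * ((ui * b1 - vi * a1) / (a * b1 - b * a1)) + a1 * ((a * vi - b * ui) / (a * b1 - b * a1)) := by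
  rw [mul_div_assoc', mul_div_assoc', ← add_div, eq_div_iff h]
  ring

theorem v_eq (a b a1 b1 ui vi : W) (h : a * b1 - b * a1 ≠ 0) :
    vi = b * ((ui * b1 - vi * a1) / (a * b1 - b * a1)) + b1 * ((a * vi - b * ui) / (a * b1 - b * a1)) := by
  rw [mul_div_assoc', mul_div_assoc', ← add_div, eq_div_iff h]
  ring

end

theorem done : Pool.Agent.Y198.MC.StmAlg1 := by
  intro k W _ _ _ _ r u v c hp
  set p := Sum.elim u (Sum.elim v c) with hpdef
  have hu : ∀ i, u i ∈ adjoin k (Set.range p) := fun i => subset_adjoin k _ ⟨.inl i, rfl⟩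
  have hv : ∀ i, v i ∈ adjoin k (Set.range p) := fun i => subset_adjoin k _ ⟨.inr (.inl i), rfl⟩
  have hc : ∀ i, c i ∈ adjoin k (Set.range p) := fun i => subset_adjoin k _ ⟨.inr (.inr i), rfl⟩
  -- nonvanishing
  have hW : u 0 * v 1 - v 0 * u 1 ≠ 0 := by
    have := ne_zero_of_point hp (X (.inl 0) * X (.inr (.inl 1)) - X (.inr (.inl 0)) * X (.inl 1))
      (Sum.elim (fun i => if i = 0 then 1 else 0) (Sum.elim (fun i => if i = 1 then 1 else 0) 0))
      (by simp)
    simpa [hpdef] using this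
  have hG : cub u v c (0, 0, 0) ≠ 0 := by
    have := ne_zero_of_point hp
      (cub (fun i => X (.inl i)) (fun i => X (.inr (.inl i))) (fun i => X (.inr (.inr i))) (0, 0, 0))
      (Sum.elim (fun i => if i = 0 then 1 else 0) (Sum.elim (fun i => if i = 1 then 1 else 0)
        (fun i => if i = 0 then 1 else 0)))
      (by simp [cub])
    simpa [hpdef, cub] using this
  set x : Ch r → W := fun i => ptX u v c (rrX r i) / ptX u v c (j0 r) with hx
  set z : Fin 5 → W := ![u 0, u 1, v 0, v 1, cub u v c (0, 0, 0)] with hz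
  have hpt : ∀ j, ptX u v c j ∈ adjoin k (Set.range p) := by
    intro j
    simp only [ptX, wdg, cub]
    repeat' first | apply_rules [add_mem, mul_mem, sub_mem, hu, hv, hc]
  have hcub : ∀ j, cub u v c j ∈ adjoin k (Set.range p) := by
    intro j
    simp only [cub]
    repeat' first | apply_rules [add_mem, mul_mem, sub_mem, hu, hv, hc]
  set L := adjoin k (Set.range (Sum.elim z x)) with hL
  have hxL : ∀ i, x i ∈ L := fun i => subset_adjoin k _ ⟨.inr i, rfl⟩
  have hzL : ∀ i, z i ∈ L := fun i => subset_adjoin k _ ⟨.inl i, rfl⟩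
  have hu0 : u 0 ∈ L := hzL 0
  have hu1 : u 1 ∈ L := hzL 1
  have hv0 : v 0 ∈ L := hzL 2
  have hv1 : v 1 ∈ L := hzL 3
  have hG0 : cub u v c (0, 0, 0) ∈ L := hzL 4
  have hui : ∀ i : Fin r, u i.succ.succ ∈ L := by
    intro i
    have h0 := hxL (.inl (i, 0))
    have h1 := hxL (.inl (i, 1))
    simp only [hx] at h0 h1
    rw [ratio0 u v c hG] at h0
    rw [ratio1 u v c hG] at h1
    rw [u_eq (u 0) (v 0) (u 1) (v 1) (u i.succ.succ) (v i.succ.succ) hW]
    exact add_mem (mul_mem hu0 h0) (mul_mem hu1 h1)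
  have hvi : ∀ i : Fin r, v i.succ.succ ∈ L := by
    intro i
    have h0 := hxL (.inl (i, 0))
    have h1 := hxL (.inl (i, 1))
    simp only [hx] at h0 h1
    rw [ratio0 u v c hG] at h0
    rw [ratio1 u v c hG] at h1
    rw [v_eq (u 0) (v 0) (u 1) (v 1) (u i.succ.succ) (v i.succ.succ) hW]
    exact add_mem (mul_mem hv0 h0) (mul_mem hv1 h1)
  have hGj : ∀ j : Fin 3, cub u v c (![(0, 0, 1), (0, 1, 1), (1, 1, 1)] j) ∈ L := by
    intro j
    have h0 := hxL (.inr j)
    simp only [hx] at h0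
    rw [ratio2 u v c hW] at h0
    have : cub u v c (![(0, 0, 1), (0, 1, 1), (1, 1, 1)] j) =
        cub u v c (![(0, 0, 1), (0, 1, 1), (1, 1, 1)] j) / cub u v c (0, 0, 0) *
          cub u v c (0, 0, 0) := by
      rw [div_mul_cancel₀ _ hG]
    rw [this]
    exact mul_mem h0 hG0
  have g1 : cub u v c (0, 0, 1) ∈ L := hGj 0
  have g2 : cub u v c (0, 1, 1) ∈ L := hGj 1
  have g3 : cub u v c (1, 1, 1) ∈ L := hGj 2
  have hm3 : (3 : W) ∈ L := ofNat_mem L 3
  have hm2 : (2 : W) ∈ L := ofNat_mem L 2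
  have c0 : c 0 ∈ L := by
    have : c 0 = (v 1 ^ 3 * cub u v c (0, 0, 0) - 3 * v 1 ^ 2 * v 0 * cub u v c (0, 0, 1) +
        3 * v 1 * v 0 ^ 2 * cub u v c (0, 1, 1) - v 0 ^ 3 * cub u v c (1, 1, 1)) /
          (u 0 * v 1 - v 0 * u 1) ^ 3 := by
      rw [eq_div_iff (pow_ne_zero _ hW)]
      simp only [cub]
      ring
    rw [this]
    clear hu hv hc hpt hcub hui hvi hxL hzL hGj
    clear_value L
    repeat' first | assumption | apply add_mem | apply sub_mem | apply mul_mem | apply pow_mem | apply div_mem | apply neg_mem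
  have c1 : c 1 ∈ L := by
    have : c 1 = (-(v 1 ^ 2 * u 1) * cub u v c (0, 0, 0) +
        (2 * v 0 * v 1 * u 1 + v 1 ^ 2 * u 0) * cub u v c (0, 0, 1) +
        (-(v 0 ^ 2 * u 1) - 2 * v 0 * v 1 * u 0) * cub u v c (0, 1, 1) +
        v 0 ^ 2 * u 0 * cub u v c (1, 1, 1)) / (u 0 * v 1 - v 0 * u 1) ^ 3 := by
      rw [eq_div_iff (pow_ne_zero _ hW)]
      simp only [cub]
      ring
    rw [this]
    clear hu hv hc hpt hcub hui hvi hxL hzL hGj
    clear_value L
    repeat' first | assumption | apply add_mem | apply sub_mem | apply mul_mem | apply pow_mem | apply div_mem | apply neg_mem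
  have c2 : c 2 ∈ L := by
    have : c 2 = (v 1 * u 1 ^ 2 * cub u v c (0, 0, 0) +
        (-(v 0 * u 1 ^ 2) - 2 * v 1 * u 0 * u 1) * cub u v c (0, 0, 1) +
        (v 1 * u 0 ^ 2 + 2 * v 0 * u 0 * u 1) * cub u v c (0, 1, 1) -
        v 0 * u 0 ^ 2 * cub u v c (1, 1, 1)) / (u 0 * v 1 - v 0 * u 1) ^ 3 := by
      rw [eq_div_iff (pow_ne_zero _ hW)]
      simp only [cub]
      ring
    rw [this]
    clear hu hv hc hpt hcub hui hvi hxL hzL hGj
    clear_value L
    repeat' first | assumption | apply add_mem | apply sub_mem | apply mul_mem | apply pow_mem | apply div_mem | apply neg_mem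
  have c3 : c 3 ∈ L := by
    have : c 3 = (-(u 1 ^ 3) * cub u v c (0, 0, 0) + 3 * u 1 ^ 2 * u 0 * cub u v c (0, 0, 1) -
        3 * u 1 * u 0 ^ 2 * cub u v c (0, 1, 1) + u 0 ^ 3 * cub u v c (1, 1, 1)) /
          (u 0 * v 1 - v 0 * u 1) ^ 3 := by
      rw [eq_div_iff (pow_ne_zero _ hW)]
      simp only [cub]
      ring
    rw [this]
    clear hu hv hc hpt hcub hui hvi hxL hzL hGj
    clear_value L
    repeat' first | assumption | apply add_mem | apply sub_mem | apply mul_mem | apply pow_mem | apply div_mem | apply neg_mem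
  have hj0 : ptX u v c (j0 r) ≠ 0 := mul_ne_zero hW hG
  obtain ⟨h1, h2⟩ := count p hp x z (by simp [Ch]; omega)
    (fun i => div_mem (hpt _) (hpt _))
    (by
      intro i
      fin_cases i
      · exact hu 0
      · exact hu 1
      · exact hv 0
      · exact hv 1
      · exact hcub _)
    (by
      rintro (i | i | i)
      · refine Fin.cases ?_ (fun i => ?_) i
        · exact hu0
        · refine Fin.cases ?_ (fun i => ?_) i
          · exact hu1
          · exact hui i
      · refine Fin.cases ?_ (fun i => ?_) i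
        · exact hv0
        · refine Fin.cases ?_ (fun i => ?_) i
          · exact hv1
          · exact hvi i
      · fin_cases i
        · exact c0
        · exact c1
        · exact c2
        · exact c3)
  exact ⟨h1, hj0, h2⟩

end Pool.Agent.Y841.MC.Alg1
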