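import Pool.Agent.Y198.MC.Stm
import Pool.Agent.Y841.MC.Alg0
import Pool.Agent.Y841.MC.Alg1

/-!
# The function field of `Y` is algebraically closed in the field of the parameters of the second
family
-/

set_option autoImplicit false

namespace Pool.Agent.Y841.MC.Alg2

open MvPolynomial IntermediateField Pool.Agent.Y166.GM Pool.Agent.Y198.MC Pool.Agent.Y841.MC

section
variable {W : Type} [Field W] {r : ℕ}

theorem vec_eq (u v : Fin (r + 2) → W) (i : Fin (r + 2)) : vec u v ![1, 0] i = u i := by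
  simp [vec]

theorem quad_eq (u v : Fin (r + 2) → W) (f : W) (t : Fin (r + 2) × Fin (r + 2)) :
    quad u v ![f / 3, 0, 1] t = f / 3 * (u t.1 * u t.2) + v t.1 * v t.2 := by
  simp [quad]

/-- the ratios of the Plücker coordinates -/
theorem ratio0 (u v : Fin (r + 2) → W) (f : W) (hu : u 0 ≠ 0)
    (hG : quad u v ![f / 3, 0, 1] (0, 0) ≠ 0) (i : Fin r) :
    ptY u v ![1, 0] ![f / 3, 0, 1] (rrY r (.inl (i, 0))) / ptY u v ![1, 0] ![f / 3, 0, 1] (j0 r) =
      (u i.succ.succ * v 1 - v i.succ.succ * u 1) / (u 0 * v 1 - v 0 * u 1) := by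
  simp only [ptY, rrY, j0, wdg, if_true]
  rw [mul_div_mul_right]
  rw [vec_eq]
  exact mul_ne_zero hu hG

theorem ratio1 (u v : Fin (r + 2) → W) (f : W) (hu : u 0 ≠ 0)
    (hG : quad u v ![f / 3, 0, 1] (0, 0) ≠ 0) (i : Fin r) :
    ptY u v ![1, 0] ![f / 3, 0, 1] (rrY r (.inl (i, 1))) / ptY u v ![1, 0] ![f / 3, 0, 1] (j0 r) =
      (u 0 * v i.succ.succ - v 0 * u i.succ.succ) / (u 0 * v 1 - v 0 * u 1) := by
  simp only [ptY, rrY, j0, wdg, one_ne_zero, if_false]
  rw [mul_div_mul_right]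
  rw [vec_eq]
  exact mul_ne_zero hu hG

theorem ratio2 (u v : Fin (r + 2) → W) (f : W) (hW : u 0 * v 1 - v 0 * u 1 ≠ 0)
    (hG : quad u v ![f / 3, 0, 1] (0, 0) ≠ 0) :
    ptY u v ![1, 0] ![f / 3, 0, 1] (rrY r (.inr 0)) / ptY u v ![1, 0] ![f / 3, 0, 1] (j0 r) =
      u 1 / u 0 := by
  simp only [ptY, rrY, j0, wdg, vec_eq, Matrix.cons_val_zero]
  rw [mul_div_mul_left _ _ hW, mul_div_mul_right _ _ hG]

theorem ratio3 (u v : Fin (r + 2) → W) (f : W) (hu : u 0 ≠ 0) (hW : u 0 * v 1 - v 0 * u 1 ≠ 0) :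
    ptY u v ![1, 0] ![f / 3, 0, 1] (rrY r (.inr 1)) / ptY u v ![1, 0] ![f / 3, 0, 1] (j0 r) =
      (f / 3 * (u 0 * u 1) + v 0 * v 1) / (f / 3 * (u 0 * u 0) + v 0 * v 0) := by
  simp only [ptY, rrY, j0, wdg, vec_eq, quad_eq, Matrix.cons_val_one, Matrix.cons_val_zero]
  rw [mul_div_mul_left _ _ hW, mul_div_mul_left _ _ hu]

theorem ratio4 (u v : Fin (r + 2) → W) (f : W) (hu : u 0 ≠ 0) (hW : u 0 * v 1 - v 0 * u 1 ≠ 0) :
    ptY u v ![1, 0] ![f / 3, 0, 1] (rrY r (.inr 2)) / ptY u v ![1, 0] ![f / 3, 0, 1] (j0 r) =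
      (f / 3 * (u 1 * u 1) + v 1 * v 1) / (f / 3 * (u 0 * u 0) + v 0 * v 0) := by
  simp only [ptY, rrY, j0, wdg, vec_eq, quad_eq, Matrix.cons_val]
  rw [mul_div_mul_left _ _ hW, mul_div_mul_left _ _ hu]

end

theorem done : Pool.Agent.Y198.MC.StmAlg2 := by
  intro k W _ _ _ _ r u v f hp
  set p : Fin (r + 2) ⊕ (Fin (r + 2) ⊕ Unit) → W := Sum.elim u (Sum.elim v fun _ : Unit => f)
    with hpdef
  have : CharZero W := charZero_of_injective_algebraMap (algebraMap k W).injective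
  have h30 : (3 : W) ≠ 0 := by norm_num
  have hu : ∀ i, u i ∈ adjoin k (Set.range p) := fun i => subset_adjoin k _ ⟨.inl i, rfl⟩
  have hv : ∀ i, v i ∈ adjoin k (Set.range p) := fun i => subset_adjoin k _ ⟨.inr (.inl i), rfl⟩
  have hf : f ∈ adjoin k (Set.range p) := subset_adjoin k _ ⟨.inr (.inr ()), rfl⟩
  -- nonvanishing
  have hW : u 0 * v 1 - v 0 * u 1 ≠ 0 := by
    have := ne_zero_of_point hp (X (.inl 0) * X (.inr (.inl 1)) - X (.inr (.inl 0)) * X (.inl 1))
      (Sum.elim (fun i => if i = 0 then 1 else 0) (Sum.elim (fun i => if i = 1 then 1 else 0) 0))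
      (by simp)
    simpa [hpdef] using this
  have hu0' : u 0 ≠ 0 := by
    have := ne_zero_of_point hp (X (.inl 0))
      (Sum.elim (fun i => if i = 0 then 1 else 0) (Sum.elim (fun i => if i = 1 then 1 else 0) 0))
      (by simp)
    simpa [hpdef] using this
  have hv0' : v 0 ≠ 0 := by
    have := ne_zero_of_point hp (X (.inr (.inl 0)))
      (Sum.elim (fun i => if i = 0 then 1 else 0) (Sum.elim (fun i => if i = 0 then 1 else 0) 0))
      (by simp)
    simpa [hpdef] using this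
  have hQ : f / 3 * (u 0 * u 0) + v 0 * v 0 ≠ 0 := by
    have := ne_zero_of_point hp
      (X (.inr (.inr ())) * (X (.inl 0) * X (.inl 0)) + 3 * (X (.inr (.inl 0)) * X (.inr (.inl 0))))
      (Sum.elim (fun i => if i = 0 then 1 else 0) (Sum.elim (fun i => if i = 1 then 1 else 0)
        (fun _ => 1)))
      (by simp)
    intro h0
    apply this
    have e : f * (u 0 * u 0) + 3 * (v 0 * v 0) = 0 := by
      have : f * (u 0 * u 0) + 3 * (v 0 * v 0) = 3 * (f / 3 * (u 0 * u 0) + v 0 * v 0) := by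
        field_simp
      rw [this, h0, mul_zero]
    simpa [hpdef] using e
  have hG : quad u v ![f / 3, 0, 1] (0, 0) ≠ 0 := by
    rw [quad_eq]; exact hQ
  set x : Ch r → W := fun i => ptY u v ![1, 0] ![f / 3, 0, 1] (rrY r i) /
    ptY u v ![1, 0] ![f / 3, 0, 1] (j0 r) with hx
  set z : Fin 2 → W := ![u 0, v 0] with hz
  have hm3p : (3 : W) ∈ adjoin k (Set.range p) := ofNat_mem _ 3
  have hpt : ∀ j, ptY u v ![1, 0] ![f / 3, 0, 1] j ∈ adjoin k (Set.range p) := by
    intro j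
    simp only [ptY, wdg, vec_eq, quad_eq]
    generalize adjoin k (Set.range p) = P at hu hv hf hm3p ⊢
    repeat' first | exact hf | exact hm3p | apply hu | apply hv | apply add_mem | apply sub_mem | apply mul_mem | apply div_mem
  set L := adjoin k (Set.range (Sum.elim z x)) with hL
  have hxL : ∀ i, x i ∈ L := fun i => subset_adjoin k _ ⟨.inr i, rfl⟩
  have hzL : ∀ i, z i ∈ L := fun i => subset_adjoin k _ ⟨.inl i, rfl⟩
  have hm3 : (3 : W) ∈ L := ofNat_mem L 3
  have hu0 : u 0 ∈ L := hzL 0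
  have hv0 : v 0 ∈ L := hzL 1
  -- the ratios
  obtain ⟨y, hy⟩ : ∃ y, y = u 1 / u 0 := ⟨_, rfl⟩
  have hyL : y ∈ L := by
    have h0 := hxL (.inr 0)
    simp only [hx] at h0
    rw [ratio2 u v f hW hG] at h0
    rw [hy]; exact h0
  have hu1e : u 1 = y * u 0 := by rw [hy]; field_simp
  have hu1 : u 1 ∈ L := by rw [hu1e]; exact mul_mem hyL hu0
  obtain ⟨Q, hQd⟩ : ∃ Q, Q = f / 3 * (u 0 * u 0) + v 0 * v 0 := ⟨_, rfl⟩
  obtain ⟨A, hA⟩ : ∃ A, A = (f / 3 * (u 0 * u 1) + v 0 * v 1) / Q := ⟨_, rfl⟩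
  obtain ⟨B, hB⟩ : ∃ B, B = (f / 3 * (u 1 * u 1) + v 1 * v 1) / Q := ⟨_, rfl⟩
  have hQ0 : Q ≠ 0 := by rw [hQd]; exact hQ
  have hAL : A ∈ L := by
    have h0 := hxL (.inr 1)
    simp only [hx] at h0
    rw [ratio3 u v f hu0' hW] at h0
    rw [hA, hQd]; exact h0
  have hBL : B ∈ L := by
    have h0 := hxL (.inr 2)
    simp only [hx] at h0
    rw [ratio4 u v f hu0' hW] at h0
    rw [hB, hQd]; exact h0
  -- v 1 - y v 0 is not zero
  have hd : v 1 - y * v 0 ≠ 0 := by
    intro h0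
    apply hW
    rw [hu1e]
    linear_combination u 0 * h0
  have e1 : (A - y) * Q = v 0 * (v 1 - y * v 0) := by
    have : A * Q = f / 3 * (u 0 * u 1) + v 0 * v 1 := by rw [hA]; field_simp
    rw [sub_mul, this, hu1e, hQd]
    ring
  have e2 : (B - y ^ 2) * Q = (v 1 - y * v 0) * (v 1 + y * v 0) := by
    have : B * Q = f / 3 * (u 1 * u 1) + v 1 * v 1 := by rw [hB]; field_simp
    rw [sub_mul, this, hu1e, hQd]
    ring
  have hAy : A - y ≠ 0 := by
    intro h0
    rw [h0, zero_mul] at e1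
    exact mul_ne_zero hv0' hd e1.symm
  have e3 : v 1 = ((B - y ^ 2) / (A - y) - y) * v 0 := by
    have h1 : (B - y ^ 2) * v 0 = (A - y) * (v 1 + y * v 0) := by
      have h2 : ((B - y ^ 2) * v 0) * Q = ((A - y) * (v 1 + y * v 0)) * Q := by
        linear_combination v 0 * e2 - (v 1 + y * v 0) * e1
      exact mul_right_cancel₀ hQ0 h2
    have h3 : (B - y ^ 2) / (A - y) * v 0 = v 1 + y * v 0 := by
      rw [div_mul_eq_mul_div, h1]
      field_simp
    rw [sub_mul, h3]
    ring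
  have hv1 : v 1 ∈ L := by
    rw [e3]
    clear hu hv hf hpt hxL hzL
    clear_value L
    repeat' first | assumption | apply add_mem | apply sub_mem | apply mul_mem | apply pow_mem | apply div_mem
  have hQL : Q ∈ L := by
    have : Q = v 0 * (v 1 - y * v 0) / (A - y) := by
      rw [eq_div_iff hAy, ← e1]; ring
    rw [this]
    clear hu hv hf hpt hxL hzL
    clear_value L
    repeat' first | assumption | apply add_mem | apply sub_mem | apply mul_mem | apply pow_mem | apply div_mem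
  have hfL : f ∈ L := by
    have : f = 3 * (Q - v 0 * v 0) / (u 0 * u 0) := by
      rw [eq_div_iff (mul_ne_zero hu0' hu0'), hQd]
      field_simp
      ring
    rw [this]
    clear hu hv hf hpt hxL hzL
    clear_value L
    repeat' first | assumption | apply add_mem | apply sub_mem | apply mul_mem | apply pow_mem | apply div_mem
  have hui : ∀ i : Fin r, u i.succ.succ ∈ L := by
    intro i
    have h0 := hxL (.inl (i, 0))
    have h1 := hxL (.inl (i, 1))
    simp only [hx] at h0 h1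
    rw [ratio0 u v f hu0' hG] at h0
    rw [ratio1 u v f hu0' hG] at h1
    rw [Alg1.u_eq (u 0) (v 0) (u 1) (v 1) (u i.succ.succ) (v i.succ.succ) hW]
    exact add_mem (mul_mem hu0 h0) (mul_mem hu1 h1)
  have hvi : ∀ i : Fin r, v i.succ.succ ∈ L := by
    intro i
    have h0 := hxL (.inl (i, 0))
    have h1 := hxL (.inl (i, 1))
    simp only [hx] at h0 h1
    rw [ratio0 u v f hu0' hG] at h0
    rw [ratio1 u v f hu0' hG] at h1
    rw [Alg1.v_eq (u 0) (v 0) (u 1) (v 1) (u i.succ.succ) (v i.succ.succ) hW]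
    exact add_mem (mul_mem hv0 h0) (mul_mem hv1 h1)
  have hj0 : ptY u v ![1, 0] ![f / 3, 0, 1] (j0 r) ≠ 0 := by
    refine mul_ne_zero hW (mul_ne_zero ?_ hG)
    rw [vec_eq]; exact hu0'
  obtain ⟨h1, h2⟩ := count p hp x z (by simp [Ch]; omega)
    (fun i => div_mem (hpt _) (hpt _))
    (by
      intro i
      fin_cases i
      · exact hu 0
      · exact hv 0)
    (by
      rintro (i | i | i)
      · refine Fin.cases ?_ (fun i => ?_) i
        · exact hu0
        · refine Fin.cases ?_ (fun i => ?_) i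
          · exact hu1
          · exact hui i
      · refine Fin.cases ?_ (fun i => ?_) i
        · exact hv0
        · refine Fin.cases ?_ (fun i => ?_) i
          · exact hv1
          · exact hvi i
      · exact hfL)
  exact ⟨h1, hj0, h2⟩

end Pool.Agent.Y841.MC.Alg2
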